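import Pool.Agent.H29.Holder

set_option autoImplicit false

namespace Pool.Agent.Results.MP_4d07cf_an.NotAlgebrable

open Filter Topology Set Asymptotics

/-- `f` is `n` times differentiable everywhere and its `n`-th derivative is nowhere Hoelder. -/
def A (n : ℕ) : Set (ℝ → ℝ) :=
  {f | (∀ i < n, Differentiable ℝ (iteratedDeriv i f)) ∧ ∀ x α : ℝ, 0 < α →
    limsup (fun y => ((|iteratedDeriv n f y - iteratedDeriv n f x| / |y - x| ^ α : ℝ) : EReal))
      (𝓝[≠] x) = ⊤}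

theorem result (n : ℕ) (hn : 1 ≤ n) (X : Set (ℝ → ℝ)) (hX : X.Nonempty) :
    ¬ ∀ k : ℕ, 1 ≤ k → ∀ P : MvPolynomial (Fin k) ℝ, P ≠ 0 → MvPolynomial.constantCoeff P = 0 →
      ∀ y : Fin k → ℝ → ℝ, Function.Injective y → (∀ i, y i ∈ X) →
        MvPolynomial.aeval y P ≠ 0 ∧ MvPolynomial.aeval y P ∈ A n := by
  intro h
  obtain ⟨f, hf⟩ := hX
  have hinj : Function.Injective (fun _ : Fin 1 => f) := fun a b _ => Subsingleton.elim a b
  have h1 := (h 1 le_rfl (MvPolynomial.X 0) (MvPolynomial.X_ne_zero _) (by simp) _ hinj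
    (fun _ => hf)).2.1
  rw [MvPolynomial.aeval_X] at h1
  obtain ⟨x, c, hb⟩ := Pool.Agent.H29.Holder.main f n hn h1
  have h2 := (h 1 le_rfl ((MvPolynomial.X 0 - MvPolynomial.C c) ^ (n + 1)
    - MvPolynomial.C ((-c) ^ (n + 1))) ?_ (by simp) _ hinj (fun _ => hf)).2.2 x 1 one_pos
  · have he : MvPolynomial.aeval (fun _ : Fin 1 => f) ((MvPolynomial.X 0 - MvPolynomial.C c) ^ (n + 1)
        - MvPolynomial.C ((-c) ^ (n + 1)) : MvPolynomial (Fin 1) ℝ)
        = fun t => (f t - c) ^ (n + 1) - (-c) ^ (n + 1) := by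
      ext t; simp
    rw [he] at h2
    obtain ⟨C, hC⟩ := hb.bound
    refine absurd h2 (ne_top_of_le_ne_top (EReal.coe_ne_top C) (limsup_le_of_le ?_ ?_))
    · isBoundedDefault
    · filter_upwards [self_mem_nhdsWithin, nhdsWithin_le_nhds hC] with y hy hC
      rw [EReal.coe_le_coe_iff, Real.rpow_one, div_le_iff₀ (abs_pos.2 (sub_ne_zero.2 hy))]
      exact hC
  · intro h0
    have h3 := congrArg (MvPolynomial.eval fun _ => c + |c| + 1) h0
    simp only [map_sub, map_pow, MvPolynomial.eval_X, MvPolynomial.eval_C, map_zero] at h3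
    have h4 : (-c) ^ (n + 1) ≤ |c| ^ (n + 1) := by
      refine (le_abs_self _).trans ?_
      rw [abs_pow, abs_neg]
    have h5 : |c| ^ (n + 1) < (c + |c| + 1 - c) ^ (n + 1) :=
      pow_lt_pow_left₀ (by linarith) (abs_nonneg _) (by omega)
    linarith

end Pool.Agent.Results.MP_4d07cf_an.NotAlgebrable
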